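import Pool.Agent.Helper63.LP.Spec

/-!
# LP: coordinates at a vertex of a facet, facet integrals
-/

set_option autoImplicit false

noncomputable section

open MeasureTheory Set Filter Topology

namespace Pool.Agent.Helper3.LP

open Pool.Agent.Helper77.LM Helper63.LP

variable {n m : ℕ}

lemma tt_X (w : Fin n → ℝ) : tt (X w) = 1 - ∑ j, w j := by
  simp only [tt, X, Finset.sum_sub_distrib, Finset.sum_const, Finset.card_univ, Fintype.card_fin,
    nsmul_eq_mul]
  field_simp
  ring

lemma bary_X (w : Fin n → ℝ) : bary (X w) = Fin.cons (1 - ∑ j, w j) w := by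
  unfold bary
  rw [tt_X]
  congr 1
  funext j
  simp only [X]
  ring

lemma mem_Dl_X (w : Fin n → ℝ) : X w ∈ Dl n ↔ w ∈ Sg n := by
  simp only [Dl, Sg, Set.mem_setOf_eq, bary_X]
  constructor
  · intro h
    refine ⟨fun j => by simpa using h j.succ, ?_⟩
    have := h 0
    rw [Fin.cons_zero] at this
    linarith
  · rintro ⟨h1, h2⟩ i
    refine Fin.cases ?_ (fun j => ?_) i
    · rw [Fin.cons_zero]; linarith
    · rw [Fin.cons_succ]; exact h1 j

lemma X_surj (x : Fin n → ℝ) : X (fun j => bary x j.succ) = x := by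
  have h1 : (1 - ∑ k : Fin n, bary x k.succ) = bary x 0 := by
    have := sum_bary x
    rw [Fin.sum_univ_succ] at this
    linarith
  funext j
  simp only [X, h1]
  simp [bary]

lemma X_inj : Function.Injective (X : (Fin n → ℝ) → (Fin n → ℝ)) := by
  intro w w' h
  have h1 := congrArg bary h
  rw [bary_X, bary_X] at h1
  funext j
  have := congrFun h1 j.succ
  simpa using this

lemma X_image : X '' Sg n = Dl n := by
  ext x
  constructor
  · rintro ⟨w, hw, rfl⟩
    exact (mem_Dl_X w).2 hw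
  · intro hx
    refine ⟨fun j => bary x j.succ, ?_, X_surj x⟩
    rw [← mem_Dl_X, X_surj]
    exact hx

lemma isClosed_Sg : IsClosed (Sg n) := by
  have : Sg n = {w : Fin n → ℝ | ∀ j, 0 ≤ w j} ∩ {w | ∑ j, w j ≤ 1} := rfl
  rw [this]
  refine IsClosed.inter ?_ (isClosed_le (by fun_prop) continuous_const)
  have : {w : Fin n → ℝ | ∀ j, 0 ≤ w j} = ⋂ j, {w | 0 ≤ w j} := by ext; simp
  rw [this]
  exact isClosed_iInter fun j => isClosed_le continuous_const (continuous_apply j)

lemma isCompact_Sg : IsCompact (Sg n) := by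
  refine (isCompact_Icc (a := (0 : Fin n → ℝ)) (b := fun _ => 1)).of_isClosed_subset isClosed_Sg ?_
  rintro w ⟨h1, h2⟩
  refine ⟨fun j => h1 j, fun j => ?_⟩
  exact (Finset.single_le_sum (f := w) (fun i _ => h1 i) (Finset.mem_univ j)).trans h2

/-- the matrix of the linear part of `X` -/
def MX (n : ℕ) : Matrix (Fin n) (Fin n) ℝ :=
  1 + Matrix.replicateCol Unit (fun _ => (1 : ℝ)) * Matrix.replicateRow Unit (fun _ => (1 : ℝ))

lemma det_MX (n : ℕ) : (MX n).det = (n : ℝ) + 1 := by
  rw [MX, Matrix.det_one_add_replicateCol_mul_replicateRow]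
  simp [dotProduct]
  ring

lemma MX_mulVec (w : Fin n → ℝ) (j : Fin n) : (MX n).mulVec w j = w j + ∑ k, w k := by
  rw [MX, Matrix.add_mulVec, Matrix.one_mulVec, Pi.add_apply]
  congr 1
  simp [Matrix.mulVec, dotProduct, Matrix.mul_apply]

/-- the linear part of `X` -/
def LX (n : ℕ) : (Fin n → ℝ) →L[ℝ] (Fin n → ℝ) := LinearMap.toContinuousLinearMap (Matrix.toLin' (MX n))

lemma det_LX (n : ℕ) : (LX n).det = (n : ℝ) + 1 := by
  have : (LX n).det = LinearMap.det (Matrix.toLin' (MX n)) := rfl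
  rw [this, LinearMap.det_toLin', det_MX]

lemma hasFDerivAt_X (w : Fin n → ℝ) : HasFDerivAt X (LX n) w := by
  have h : (X : (Fin n → ℝ) → (Fin n → ℝ)) = fun w => LX n w + fun _ => (-1 : ℝ) := by
    funext w j
    have : LX n w j = w j + ∑ k, w k := MX_mulVec w j
    simp only [Pi.add_apply, this, X]
    ring
  rw [h]
  exact (LX n).hasFDerivAt.add_const _

/-- Integrals over the simplex in the coordinates at the vertex `0`. -/
lemma A_X (f : (Fin (n + 1) → ℝ) → ℝ) :
    A n f = ((n : ℝ) + 1) * ∫ w in Sg n, f (Fin.cons (1 - ∑ j, w j) w) := by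
  rw [A, ← X_image, integral_image_eq_integral_abs_det_fderiv_smul volume
    isClosed_Sg.measurableSet (fun w _ => (hasFDerivAt_X w).hasFDerivWithinAt) X_inj.injOn]
  rw [det_LX, abs_of_pos (by positivity)]
  simp only [bary_X, smul_eq_mul]
  rw [integral_const_mul]

lemma V_eq (n : ℕ) : V n = ((n : ℝ) + 1) / (n.factorial : ℝ) := by
  induction n with
  | zero => rw [V_zero]; simp
  | succ n ih =>
    rw [V_step, ih, Nat.factorial_succ]
    push_cast
    field_simp
    ring

lemma sg_perm (m : ℕ) (σ : Equiv.Perm (Fin (m + 1))) (l : Fin (m + 1) → ℝ) :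
    sg m (fun i => l (σ i)) = sg m l := by
  unfold sg
  congr 2
  apply le_antisymm
  · refine Finset.le_inf' _ _ fun i _ => ?_
    have := Finset.inf'_le (f := fun i => l (σ i)) (Finset.mem_univ (σ⁻¹ i))
    simpa using this
  · refine Finset.le_inf' _ _ fun i _ => ?_
    exact Finset.inf'_le _ (Finset.mem_univ (σ i))

lemma continuous_sg (m : ℕ) : Continuous (sg m) := by
  unfold sg
  refine continuous_const.sub (continuous_const.mul ?_)
  exact Continuous.finset_inf'_apply _ fun i _ => continuous_apply i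

lemma sg_nonneg {m : ℕ} {l : Fin (m + 1) → ℝ} (hl : l ∈ stdSimplex ℝ (Fin (m + 1))) :
    0 ≤ sg m l := by
  unfold sg
  have h1 : ∑ i : Fin (m + 1), Finset.univ.inf' ⟨0, Finset.mem_univ _⟩ l ≤ ∑ i, l i :=
    Finset.sum_le_sum fun i _ => Finset.inf'_le _ (Finset.mem_univ i)
  rw [hl.2, Finset.sum_const, Finset.card_univ, Fintype.card_fin, nsmul_eq_mul] at h1
  push_cast at h1
  linarith

lemma cons_mem {w : Fin n → ℝ} (hw : w ∈ Sg n) :
    (Fin.cons (1 - ∑ j, w j) w : Fin (n + 1) → ℝ) ∈ stdSimplex ℝ (Fin (n + 1)) := by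
  rw [← bary_X]
  exact bary_mem_std ((mem_Dl_X w).2 hw)

end Pool.Agent.Helper3.LP

end
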